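import Pool.Agent.K7.H22.EV.Stm

set_option autoImplicit false

/-!
# Counting in codes of strength `t` and index one
-/

open Finset

namespace Pool.Agent.K7.H89.EV

open Pool.Agent.K7.H22.EV

variable {ι S W : Type} [Fintype ι] [Fintype S] [Fintype W]

open Classical in
/-- words agreeing with `v` on `B` -/
noncomputable def wd (f : W → ι → S) (B : Finset ι) (v : ι → S) : Finset W :=
  univ.filter fun w => ∀ i ∈ B, f w i = v i

theorem mem_wd (f : W → ι → S) (B : Finset ι) (v : ι → S) (w : W) :
    w ∈ wd f B v ↔ ∀ i ∈ B, f w i = v i := by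
  simp [wd]

theorem mem_ag (f : W → ι → S) (u w : W) (i : ι) : i ∈ ag f u w ↔ f u i = f w i := by
  simp [ag]

theorem ag_comm (f : W → ι → S) (u w : W) : ag f u w = ag f w u := by
  ext i; rw [mem_ag, mem_ag]; exact eq_comm

theorem cnt (f : W → ι → S) (t c : ℕ) (hT : T t f) (ht : t ≤ Fintype.card ι) (B : Finset ι)
    (v : ι → S) (hB : B.card + c = t) : (wd f B v).card = Fintype.card S ^ c := by
  classical
  obtain ⟨A, hBA, hA⟩ := exists_superset_card_eq (s := B) (n := t) (by omega) ht
  have hc : (A \ B).card = c := by
    rw [card_sdiff_of_subset hBA]; omega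
  have h : (wd f B v).card = (univ : Finset ((A \ B : Finset ι) → S)).card := by
    refine Finset.card_bij (fun w _ => fun i => f w i.1) (fun _ _ => mem_univ _) ?_ ?_
    · intro w1 h1 w2 h2 heq
      rw [mem_wd] at h1 h2
      refine (hT A hA (f w1)).unique (fun i _ => rfl) (fun i hi => ?_)
      by_cases hiB : i ∈ B
      · rw [h1 i hiB, h2 i hiB]
      · have := congrFun heq ⟨i, mem_sdiff.2 ⟨hi, hiB⟩⟩
        exact this.symm
    · intro g _
      obtain ⟨w, hw, _⟩ := hT A hA (fun i => if h : i ∈ A \ B then g ⟨i, h⟩ else v i)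
      refine ⟨w, ?_, ?_⟩
      · rw [mem_wd]
        intro i hi
        have h1 := hw i (hBA hi)
        have h2 : i ∉ A \ B := fun h => (mem_sdiff.1 h).2 hi
        simp only [h2, dite_false] at h1
        exact h1
      · funext i
        have h1 := hw i.1 (mem_sdiff.1 i.2).1
        have h2 : i.1 ∈ A \ B := i.2
        simp only [h2, dite_true] at h1
        exact h1
  rw [h, card_univ, Fintype.card_fun, Fintype.card_coe, hc]

theorem ag_lt (f : W → ι → S) (t : ℕ) (hT : T t f) (u w : W) (h : u ≠ w) :
    (ag f u w).card < t := by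
  by_contra hlt
  push Not at hlt
  obtain ⟨A, hA1, hA2⟩ := exists_subset_card_eq hlt
  exact h ((hT A hA2 (f u)).unique (fun i _ => rfl) (fun i hi => by
    have := hA1 hi
    rw [mem_ag] at this
    exact this.symm))

open Classical in
/-- number of pairs (word through the points of `B`, `k` common points with `u` in `L`) -/
theorem cntk (f : W → ι → S) (t k c : ℕ) (hT : T t f) (ht : t ≤ Fintype.card ι) (B L : Finset ι)
    (hBL : Disjoint B L) (v : ι → S) (u : W) (h : B.card + k + c = t) :
    ∑ x ∈ wd f B v, ((L ∩ ag f x u).card.choose k) = L.card.choose k * Fintype.card S ^ c := by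
  have h1 : ∀ x, (L ∩ ag f x u).card.choose k =
      ∑ P ∈ powersetCard k L, if P ⊆ ag f x u then 1 else 0 := by
    intro x
    rw [← card_powersetCard, ← card_filter]
    congr 1
    ext P
    simp only [mem_powersetCard, mem_filter, subset_inter_iff]
    tauto
  simp_rw [h1]
  rw [sum_comm]
  have h2 : ∀ P ∈ powersetCard k L,
      (∑ x ∈ wd f B v, if P ⊆ ag f x u then 1 else 0) = Fintype.card S ^ c := by
    intro P hP
    rw [mem_powersetCard] at hP
    have hd : Disjoint B P := disjoint_of_subset_right hP.1 hBL
    rw [← card_filter, ← cnt f t c hT ht (B ∪ P) (fun i => if i ∈ P then f u i else v i)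
      (by rw [card_union_of_disjoint hd, hP.2]; exact h)]
    congr 1
    ext x
    simp only [mem_filter, mem_wd, mem_union]
    constructor
    · rintro ⟨ha, hb⟩ i hi
      by_cases hiP : i ∈ P
      · simp only [hiP, if_true]
        exact (mem_ag f x u i).1 (hb hiP)
      · simp only [hiP, if_false]
        exact ha i (hi.resolve_right hiP)
    · intro ha
      refine ⟨fun i hi => ?_, fun i hi => ?_⟩
      · have h3 := ha i (Or.inl hi)
        have hiP : i ∉ P := fun hh => disjoint_left.1 hd hi hh
        simp only [hiP, if_false] at h3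
        exact h3
      · have h3 := ha i (Or.inr hi)
        simp only [hi, if_true] at h3
        exact (mem_ag f x u i).2 h3
  rw [sum_congr rfl h2, sum_const, card_powersetCard, smul_eq_mul]

end Pool.Agent.K7.H89.EV
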